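import Pool.Agent.Q223.LW.Wide
import Pool.Agent.Q223.LD.PLaw

/-! The fields with large local degrees are a wide family. -/

set_option autoImplicit false
set_option linter.unusedSectionVars false

namespace Pool.Agent.Q223.LW

open NumberField Filter Topology Pool.Agent.W353.NF Pool.Agent.W401.Cheb Pool.Agent.Q5.HR
  Pool.Agent.Q223.LD
open scoped Classical

section
variable {K : Type} [Field K] [NumberField K]

theorem hypP_of_cyclic {G : Type} [Group G] [IsCyclic G] (p : ℕ) : HypP p G :=
  ⟨⊤, inferInstance, fun _ => ⟨0, trivial⟩⟩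

/-- the fixed fields of cyclic groups -/
theorem locDvd_cyclic {S : Finset ℕ} (hS : ∀ q ∈ S, q.Prime) {N : ℕ} (hN : N ≠ 0)
    (K : Type) [Field K] [NumberField K] :
    ∃ (L : Type) (_ : Field L) (_ : NumberField L) (_ : Algebra K L), IsGalois K L ∧
      ∀ s : L ≃ₐ[K] L, ∀ q ∈ S, ∀ [NumberField (IntermediateField.fixedField (Subgroup.zpowers s))],
        LocDvd q N (IntermediateField.fixedField (Subgroup.zpowers s)) := by
  obtain ⟨L, _, _, _, hgal, hL⟩ := exists_big K (S ×ˢ N.primeFactors)
    (fun t => pol t.1 t.2 (N.factorization t.2)) (fun t ht => by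
      rw [Finset.mem_product] at ht
      exact pol_ne (hS _ ht.1).one_lt (Nat.prime_of_mem_primeFactors ht.2).pos)
  have hgal' : IsGalois K L := IsGalois.tower_top_of_isGalois ℚ K L
  refine ⟨L, inferInstance, inferInstance, inferInstance, hgal', fun s q hq hnf => ?_⟩
  set E := IntermediateField.fixedField (Subgroup.zpowers s) with hE
  have hgE : IsGalois E L := IsGalois.tower_top_of_isGalois ℚ E L
  let e : Subgroup.zpowers s ≃* Gal(L/E) :=
    (MulEquiv.subgroupCongr
      (IntermediateField.fixingSubgroup_fixedField (Subgroup.zpowers s)).symm).trans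
      (IntermediateField.fixingSubgroupEquiv E)
  have hcyc : IsCyclic Gal(L/E) := isCyclic_of_surjective e.toMonoidHom e.surjective
  refine locDvd_of_primes hN fun r hr => ?_
  have hr' : r.Prime := Nat.prime_of_mem_primeFactors hr
  have hb : 0 < N.factorization r :=
    hr'.factorization_pos_of_dvd hN (Nat.dvd_of_mem_primeFactors hr)
  have hqf : Fact q.Prime := ⟨hS q hq⟩
  have hrf : Fact r.Prime := ⟨hr'⟩
  obtain ⟨N', _, _, hNgal, z₁, z₂, a, h₁, h₂, ha, hN', hemb⟩ :=
    exists_field (q := q) (r := r) (hS q hq).one_lt hr'.pos (N.factorization r)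
  obtain ⟨i⟩ := hemb L (hL (q, r) (Finset.mem_product.2 ⟨hq, hr⟩))
  obtain ⟨p, hp, hrp⟩ : ∃ p : ℕ, p.Prime ∧ r ≠ p := by
    by_cases h2 : r = 2
    · exact ⟨3, Nat.prime_three, by omega⟩
    · exact ⟨2, Nat.prime_two, h2⟩
  exact locDvd_hyper hb h₁ h₂ ha hN' hp hrp i (hypP_of_cyclic p)

/-- The fields whose local degrees above `S` are divisible by `N`. -/
def Loc (K : Type) [Field K] (S : Finset ℕ) (N : ℕ) :
    Set (IntermediateField K (AlgebraicClosure K)) :=
  {F | FiniteDimensional K F ∧ ∀ [NumberField F], ∀ q ∈ S, LocDvd q N F}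

theorem loc_wide {S : Finset ℕ} (hS : ∀ q ∈ S, q.Prime) {N : ℕ} (hN : N ≠ 0) :
    Wide (Loc K S N) := by
  refine ⟨fun F hF => hF.1, fun F hF F' hfd hle => ⟨hfd, fun {hnf'} q hq => ?_⟩, fun σ => ?_⟩
  · have hfdF : FiniteDimensional K F := hF.1
    have hnf : NumberField F := NumberField.of_module_finite K F
    exact locDvd_up (IntermediateField.inclusion hle : F →ₐ[K] F').toRingHom (hF.2 q hq)
  · obtain ⟨L, _, _, _, hgal, hL⟩ := locDvd_cyclic hS hN K
    let i : L →ₐ[K] AlgebraicClosure K := IsAlgClosed.lift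
    let _ : Algebra L (AlgebraicClosure K) := i.toRingHom.toAlgebra
    have : IsScalarTower K L (AlgebraicClosure K) :=
      IsScalarTower.of_algebraMap_eq fun x => (i.commutes x).symm
    let s : L ≃ₐ[K] L := AlgEquiv.restrictNormal σ L
    have hs : ∀ x : L, i (s x) = σ (i x) := fun x => AlgEquiv.restrictNormal_commutes σ L x
    set E := IntermediateField.fixedField (Subgroup.zpowers s) with hE
    have hnfE : NumberField E := NumberField.of_module_finite K E
    let e : E ≃ₐ[K] E.map i := IntermediateField.equivMap E i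
    have hfd : FiniteDimensional K (E.map i) := LinearEquiv.finiteDimensional e.toLinearEquiv
    refine ⟨E.map i, ⟨hfd, fun {hnf} q hq => ?_⟩, ?_⟩
    · exact locDvd_up (e : E →ₐ[K] E.map i).toRingHom (hL s q hq)
    · rintro _ ⟨x, hx, rfl⟩
      have h1 : s x = x :=
        (IntermediateField.mem_fixedField_iff _ _).1 hx s (Subgroup.mem_zpowers s)
      change σ (i x) = i x
      rw [← hs, h1]

end

end Pool.Agent.Q223.LW
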