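import Pool.Agent.Q223.LW.Deg
import Mathlib.Tactic.TFAE

/-! Number fields with prescribed completions: the general law. -/

set_option autoImplicit false
set_option linter.unusedSectionVars false

namespace Pool.Agent.Q223.LW

open NumberField Filter Topology Pool.Agent.W353.NF Pool.Agent.W401.Cheb Pool.Agent.Q5.HR
  Pool.Agent.Q5.BR Pool.Agent.Q223.LD
open scoped Classical

section
variable {K : Type} [Field K] [NumberField K]

/-- the composites of `Z` with the conjugates of `F` belong to the family -/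
def Comp (Z : IntermediateField K (AlgebraicClosure K))
    (𝓛 : Set (IntermediateField K (AlgebraicClosure K))) (F : Type) [Field F] [Algebra K F] : Prop :=
  ∀ j : F →ₐ[K] AlgebraicClosure K, Z ⊔ j.fieldRange ∈ 𝓛

theorem comp_iff {Z : IntermediateField K (AlgebraicClosure K)}
    {𝓛 : Set (IntermediateField K (AlgebraicClosure K))}
    (F : IntermediateField K (AlgebraicClosure K)) :
    Comp Z 𝓛 F ↔ ∀ τ : GK K,
      Z ⊔ F.map (τ : AlgebraicClosure K →ₐ[K] AlgebraicClosure K) ∈ 𝓛 := by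
  have key : ∀ (τ : GK K) (j : F →ₐ[K] AlgebraicClosure K), (∀ x : F, τ x = j x) →
      j.fieldRange = F.map (τ : AlgebraicClosure K →ₐ[K] AlgebraicClosure K) := by
    intro τ j h
    ext y
    constructor
    · rintro ⟨x, rfl⟩
      exact ⟨x, x.2, h x⟩
    · rintro ⟨x, hx, rfl⟩
      exact ⟨⟨x, hx⟩, (h ⟨x, hx⟩).symm⟩
  constructor
  · intro h τ
    rw [← key τ ((τ : AlgebraicClosure K →ₐ[K] AlgebraicClosure K).comp F.val) fun x => rfl]
    exact h _
  · intro h j
    obtain ⟨τ, hτ⟩ := exists_ext F j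
    rw [key τ j hτ]
    exact h τ

theorem mem_glob {Z : IntermediateField K (AlgebraicClosure K)}
    {𝓛 : Set (IntermediateField K (AlgebraicClosure K))}
    (F : IntermediateField K (AlgebraicClosure K)) :
    F ∈ Glob Z 𝓛 ↔ FiniteDimensional K F ∧ Comp Z 𝓛 F := by
  rw [comp_iff]
  rfl

/-- finite intersections of wide families -/
theorem wide_iInter {ι : Type} [Finite ι]
    {𝓕 : ι → Set (IntermediateField K (AlgebraicClosure K))} (h : ∀ i, Wide (𝓕 i)) :
    Wide {F : IntermediateField K (AlgebraicClosure K) | FiniteDimensional K F ∧ ∀ i, F ∈ 𝓕 i} := by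
  have := Fintype.ofFinite ι
  refine ⟨fun F hF => hF.1, fun F hF F' hfd hle => ⟨hfd, fun i =>
    (h i).2.1 F (hF.2 i) F' hfd hle⟩, fun σ => ?_⟩
  choose F hF hFσ using fun i => (h i).2.2 σ
  have hfd : ∀ i, FiniteDimensional K (F i) := fun i => (h i).1 _ (hF i)
  have hfd' : FiniteDimensional K (⨆ i, F i : IntermediateField K (AlgebraicClosure K)) :=
    IntermediateField.finiteDimensional_iSup_of_finite
  refine ⟨⨆ i, F i, ⟨hfd', fun i => (h i).2.1 _ (hF i) _ hfd' (le_iSup F i)⟩, ?_⟩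
  have h4 : (⨆ i, F i) ≤ fx σ := iSup_le fun i x hx => mem_fx.2 (hFσ i x hx)
  exact fun x hx => mem_fx.1 (h4 hx)

/-- the fields with prescribed completions -/
def Pre {ι : Type} (Z : ι → IntermediateField K (AlgebraicClosure K))
    (𝓛 : ι → Set (IntermediateField K (AlgebraicClosure K))) :
    Set (IntermediateField K (AlgebraicClosure K)) :=
  {F | FiniteDimensional K F ∧ ∀ i, Comp (Z i) (𝓛 i) F}

theorem pre_wide {ι : Type} [Finite ι] {Z : ι → IntermediateField K (AlgebraicClosure K)}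
    {𝓛 : ι → Set (IntermediateField K (AlgebraicClosure K))}
    (hup : ∀ i, ∀ L ∈ 𝓛 i, ∀ L', L ≤ L' → L' ∈ 𝓛 i) (h : ∀ i, LocWide (Z i) (𝓛 i)) :
    Wide (Pre Z 𝓛) := by
  have h1 := wide_iInter fun i => glob_wide (hup i) (h i)
  have h2 : Pre Z 𝓛 = {F : IntermediateField K (AlgebraicClosure K) |
      FiniteDimensional K F ∧ ∀ i, F ∈ Glob (Z i) (𝓛 i)} := by
    ext F
    constructor
    · intro hF
      exact ⟨hF.1, fun i => (mem_glob F).2 ⟨hF.1, hF.2 i⟩⟩
    · intro hF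
      exact ⟨hF.1, fun i => ((mem_glob F).1 (hF.2 i)).2⟩
  rwa [h2]

/-- **Prescribed completions.** -/
theorem pre_tfae {ι : Type} [Finite ι] (Z : ι → IntermediateField K (AlgebraicClosure K))
    (𝓛 : ι → Set (IntermediateField K (AlgebraicClosure K)))
    (hup : ∀ i, ∀ L ∈ 𝓛 i, ∀ L', L ≤ L' → L' ∈ 𝓛 i) :
    [∀ i, LocWide (Z i) (𝓛 i),
     Wide (Pre Z 𝓛),
     ∃ (κ : Type) (_ : Fintype κ) (F : κ → IntermediateField K (AlgebraicClosure K)) (n : κ → ℤ)
      (e : ℤ), e ≠ 0 ∧ (∀ j, F j ∈ Pre Z 𝓛) ∧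
        ∀ σ : GK K, ∑ j, n j * (fixn K (F j) σ : ℤ) = e].TFAE := by
  tfae_have 1 → 2 := fun h => pre_wide hup h
  tfae_have 2 → 3 := by
    intro h
    obtain ⟨κ, hκ, F, n, m, hm, hF, hrel⟩ := wide_relation h
    exact ⟨κ, hκ, F, n, m, by exact_mod_cast hm.ne', hF, hrel⟩
  tfae_have 3 → 1 := by
    rintro ⟨κ, _, F, n, e, he, hF, hrel⟩ i
    exact locWide_of_relation F n he (fun j => (mem_glob (F j)).2 ⟨(hF j).1, (hF j).2 i⟩) hrel
  tfae_finish

/-- **The law for prescribed completions, local and global degrees.** -/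
theorem pre_law {ι : Type} [Finite ι] {Z : ι → IntermediateField K (AlgebraicClosure K)}
    {𝓛 : ι → Set (IntermediateField K (AlgebraicClosure K))}
    (hup : ∀ i, ∀ L ∈ 𝓛 i, ∀ L', L ≤ L' → L' ∈ 𝓛 i) (hw : ∀ i, LocWide (Z i) (𝓛 i))
    {S : Finset ℕ} (hS : ∀ q ∈ S, q.Prime) {N : ℕ} (hN : N ≠ 0) {M : ℕ} (hM : 0 < M) :
    ∃ m : ℕ, 0 < m ∧
      ∀ P : (∀ (F : Type) [Field F] [NumberField F] [Algebra K F], ℤ → Prop),
      Pool.Agent.Q5.VL.IsLaw P → ∀ t : ℤ, (∀ (F : Type) [Field F] [NumberField F] [Algebra K F],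
        (∀ i, Comp (Z i) (𝓛 i) F) → (∀ q ∈ S, LocDvd q N F) → M ∣ Module.finrank K F →
          P F t) → P K (m * t) := by
  have h1 := ((pre_wide hup hw).inter (loc_wide (K := K) hS hN)).inter
    (Pool.Agent.Q5.HR.wide_deg (K := K) hM)
  obtain ⟨m, hm, h2⟩ := Pool.Agent.Q5.VL.wide_law h1
  refine ⟨m, hm, fun P hP t h => h2 P hP t fun F hF hnf => ?_⟩
  exact h F hF.1.1.2 hF.1.2.2 hF.2.2

end

end Pool.Agent.Q223.LW
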