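import Pool.Agent.Q5.HR.Crit
import Pool.Agent.Q5.VL.Abs

/-! Wide families of number fields given by local conditions. -/

set_option autoImplicit false
set_option linter.unusedSectionVars false

namespace Pool.Agent.Q223.LW

open NumberField Filter Topology Pool.Agent.W353.NF Pool.Agent.W401.Cheb Pool.Agent.Q5.HR
open scoped Classical

section
variable {K : Type} [Field K] [NumberField K]

/-- Every automorphism over `Z` fixes a finite extension `E` of `K` with `Z E` in the family. -/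
def LocWide (Z : IntermediateField K (AlgebraicClosure K))
    (𝓛 : Set (IntermediateField K (AlgebraicClosure K))) : Prop :=
  ∀ σ : GK K, (∀ x ∈ Z, σ x = x) → ∃ E : IntermediateField K (AlgebraicClosure K),
    FiniteDimensional K E ∧ (∀ x ∈ E, σ x = x) ∧ Z ⊔ E ∈ 𝓛

/-- The finite extensions `F` of `K` such that `Z τ(F)` is in the family for all `τ`. -/
def Glob (Z : IntermediateField K (AlgebraicClosure K))
    (𝓛 : Set (IntermediateField K (AlgebraicClosure K))) :
    Set (IntermediateField K (AlgebraicClosure K)) :=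
  {F | FiniteDimensional K F ∧ ∀ τ : GK K,
    Z ⊔ F.map (τ : AlgebraicClosure K →ₐ[K] AlgebraicClosure K) ∈ 𝓛}

theorem isClosed_fix (Z : IntermediateField K (AlgebraicClosure K)) :
    IsClosed (Z.fixingSubgroup : Set (GK K)) := InfiniteGalois.fixingSubgroup_isClosed Z

/-- A finite normal extension which contains enough of the fields `E`. -/
theorem exists_normal {Z : IntermediateField K (AlgebraicClosure K)}
    {𝓛 : Set (IntermediateField K (AlgebraicClosure K))} (h : LocWide Z 𝓛) :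
    ∃ M : IntermediateField K (AlgebraicClosure K), FiniteDimensional K M ∧ Normal K M ∧
      ∀ σ : GK K, (∀ x ∈ Z, σ x = x) → ∃ E : IntermediateField K (AlgebraicClosure K),
        E ≤ M ∧ (∀ x ∈ E, σ x = x) ∧ Z ⊔ E ∈ 𝓛 := by
  choose! E hE using h
  have hcomp : IsCompact (Z.fixingSubgroup : Set (GK K)) := (isClosed_fix Z).isCompact
  have hmem : ∀ σ ∈ Z.fixingSubgroup, ∀ x ∈ Z, σ x = x := fun σ hσ x hx => hσ ⟨x, hx⟩
  obtain ⟨t, htD, ht⟩ := hcomp.elim_nhds_subcover
    (fun σ => if h : σ ∈ Z.fixingSubgroup then ((E σ).fixingSubgroup : Set (GK K)) else Set.univ)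
    (fun σ hσ => by
      have hσ' : σ ∈ Z.fixingSubgroup := hσ
      simp only [hσ', dite_true]
      obtain ⟨h1, h2, -⟩ := hE σ (hmem σ hσ')
      exact (E σ).fixingSubgroup_isOpen.mem_nhds fun x => h2 x.1 x.2)
  have hfd : ∀ σ ∈ t, FiniteDimensional K (E σ) := fun σ hσ => (hE σ (hmem σ (htD σ hσ))).1
  let M : IntermediateField K (AlgebraicClosure K) :=
    ⨆ j : t, IntermediateField.normalClosure K (E j) (AlgebraicClosure K)
  have hfdM : FiniteDimensional K M := by
    have : ∀ j : t, FiniteDimensional K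
      (IntermediateField.normalClosure K (E j) (AlgebraicClosure K)) := fun j => by
        have := hfd j.1 j.2
        infer_instance
    exact IntermediateField.finiteDimensional_iSup_of_finite
  have hnor : Normal K M := by
    have : ∀ j : t, Normal K (IntermediateField.normalClosure K (E j) (AlgebraicClosure K)) :=
      fun j => inferInstance
    exact IntermediateField.normal_iSup K (AlgebraicClosure K) _
  refine ⟨M, hfdM, hnor, fun σ hσ => ?_⟩
  have hσD : σ ∈ Z.fixingSubgroup := fun x => hσ x.1 x.2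
  obtain ⟨τ, hτ⟩ := Set.mem_iUnion.1 (ht hσD)
  obtain ⟨hτt, hτ'⟩ := Set.mem_iUnion.1 hτ
  have hτD : τ ∈ Z.fixingSubgroup := htD τ hτt
  simp only [hτD, dite_true] at hτ'
  refine ⟨E τ, (IntermediateField.le_normalClosure (E τ)).trans
      (le_iSup (fun j : t => IntermediateField.normalClosure K (E j) (AlgebraicClosure K))
        ⟨τ, hτt⟩), fun x hx => hτ' ⟨x, hx⟩, (hE τ (hmem τ hτD)).2.2⟩

/-- Galois theory in the algebraic closure. -/
theorem le_of_fix {W E : IntermediateField K (AlgebraicClosure K)}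
    (h : ∀ ρ : GK K, (∀ x ∈ W, ρ x = x) → ∀ x ∈ E, ρ x = x) : E ≤ W := by
  intro x hx
  rw [← InfiniteGalois.fixedField_fixingSubgroup W, IntermediateField.mem_fixedField_iff]
  intro ρ hρ
  exact h ρ (fun y hy => hρ ⟨y, hy⟩) x hx

theorem glob_wide {Z : IntermediateField K (AlgebraicClosure K)}
    {𝓛 : Set (IntermediateField K (AlgebraicClosure K))} (hup : ∀ L ∈ 𝓛, ∀ L', L ≤ L' → L' ∈ 𝓛)
    (h : LocWide Z 𝓛) : Wide (Glob Z 𝓛) := by
  obtain ⟨M, hfd, hnor, hM⟩ := exists_normal h
  refine ⟨fun F hF => hF.1, fun F hF F' hfd' hle => ⟨hfd', fun τ => ?_⟩, fun σ => ?_⟩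
  · refine hup _ (hF.2 τ) _ (sup_le_sup_left ?_ Z)
    exact IntermediateField.map_mono _ hle
  · have hfdF : FiniteDimensional K (M ⊓ fx σ : IntermediateField K (AlgebraicClosure K)) :=
      FiniteDimensional.of_injective
        (IntermediateField.inclusion (inf_le_left : M ⊓ fx σ ≤ M)).toLinearMap
        (IntermediateField.inclusion_injective (inf_le_left : M ⊓ fx σ ≤ M))
    refine ⟨M ⊓ fx σ, ⟨hfdF, fun τ => ?_⟩, fun x hx => mem_fx.1 hx.2⟩
    set F : IntermediateField K (AlgebraicClosure K) := M ⊓ fx σ with hF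
    set W : IntermediateField K (AlgebraicClosure K) :=
      Z ⊔ F.map (τ : AlgebraicClosure K →ₐ[K] AlgebraicClosure K) with hW
    let r : GK K →* (M ≃ₐ[K] M) := AlgEquiv.restrictNormalHom M
    have hr : ∀ (ρ : GK K) (x : M), ((r ρ x : M) : AlgebraicClosure K) = ρ x := fun ρ x =>
      AlgEquiv.restrictNormal_commutes ρ M x
    -- the image of the group of `W` is cyclic
    have hle : W.fixingSubgroup.map r ≤ Subgroup.zpowers (r (τ * σ * τ⁻¹)) := by
      rintro _ ⟨ρ, hρ, rfl⟩
      rw [← IntermediateField.fixingSubgroup_fixedField (Subgroup.zpowers (r (τ * σ * τ⁻¹)))]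
      rintro ⟨x, hx⟩
      have h1 : r (τ * σ * τ⁻¹) x = x := by
        exact (IntermediateField.mem_fixedField_iff _ _).1 hx _ (Subgroup.mem_zpowers _)
      have h2 : τ (σ (τ⁻¹ (x : AlgebraicClosure K))) = x := by
        have h3 := hr (τ * σ * τ⁻¹) x
        rw [h1] at h3
        exact h3.symm
      have h4 : τ⁻¹ (x : AlgebraicClosure K) ∈ M := by
        rw [← hr τ⁻¹ x]
        exact (r τ⁻¹ x).2
      have h5 : σ (τ⁻¹ (x : AlgebraicClosure K)) = τ⁻¹ (x : AlgebraicClosure K) := by
        apply τ.injective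
        rw [h2]
        exact (τ.apply_symm_apply _).symm
      have h6 : (x : AlgebraicClosure K) ∈ W := by
        have h7 : (x : AlgebraicClosure K) ∈
            F.map (τ : AlgebraicClosure K →ₐ[K] AlgebraicClosure K) :=
          ⟨τ⁻¹ (x : AlgebraicClosure K), ⟨h4, mem_fx.2 h5⟩, τ.apply_symm_apply _⟩
        exact (le_sup_right : _ ≤ W) h7
      change r ρ x = x
      apply Subtype.ext
      rw [hr]
      exact hρ ⟨x, h6⟩
    obtain ⟨⟨g, hg⟩, hgen⟩ : ∃ g : W.fixingSubgroup.map r, ∀ x : W.fixingSubgroup.map r,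
        x ∈ Subgroup.zpowers g := (Subgroup.isCyclic_of_le hle).exists_generator
    obtain ⟨δ, hδ, rfl⟩ := hg
    obtain ⟨E, hEM, hEδ, hE⟩ := hM δ (fun x hx => hδ ⟨x, (le_sup_left : Z ≤ W) hx⟩)
    refine hup _ hE _ (sup_le le_sup_left (le_of_fix fun ρ hρ x hx => ?_))
    have h1 := hgen ⟨r ρ, ρ, fun y => hρ y.1 y.2, rfl⟩
    obtain ⟨k, hk⟩ := h1
    have h2 : (r δ) ^ k = r ρ := congrArg Subtype.val hk
    have h3 : r δ ⟨x, hEM hx⟩ = ⟨x, hEM hx⟩ := by
      apply Subtype.ext
      rw [hr]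
      exact hEδ x hx
    have h4 : r δ ∈ MulAction.stabilizer (M ≃ₐ[K] M) (⟨x, hEM hx⟩ : M) := h3
    have h5 := Subgroup.zpow_mem _ h4 k
    rw [h2] at h5
    have h6 : r ρ ⟨x, hEM hx⟩ = ⟨x, hEM hx⟩ := h5
    rw [← hr ρ ⟨x, hEM hx⟩, h6]

/-- extend an embedding -/
theorem exists_ext (F : IntermediateField K (AlgebraicClosure K)) (i : F →ₐ[K] AlgebraicClosure K) :
    ∃ τ : GK K, ∀ x : F, τ x = i x := by
  obtain ⟨j, hj⟩ := exists_extension (K := K) (F := F) (N := AlgebraicClosure K)
    (Ω := AlgebraicClosure K) i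
  exact ⟨AlgEquiv.ofBijective j (Algebra.IsAlgebraic.algHom_bijective j), fun x => hj x⟩

theorem locWide_of_wide {Z : IntermediateField K (AlgebraicClosure K)}
    {𝓛 : Set (IntermediateField K (AlgebraicClosure K))}
    {𝓕 : Set (IntermediateField K (AlgebraicClosure K))} (hsub : 𝓕 ⊆ Glob Z 𝓛) (h : Wide 𝓕) :
    LocWide Z 𝓛 := by
  intro σ _
  obtain ⟨F, hF, hFσ⟩ := h.2.2 σ
  refine ⟨F, h.1 F hF, hFσ, ?_⟩
  have h1 := (hsub hF).2 1
  have h2 : F.map ((1 : GK K) : AlgebraicClosure K →ₐ[K] AlgebraicClosure K) = F :=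
    IntermediateField.map_id F
  rwa [h2] at h1

/-- A relation between the permutation characters of the fields of the family. -/
theorem locWide_of_relation {Z : IntermediateField K (AlgebraicClosure K)}
    {𝓛 : Set (IntermediateField K (AlgebraicClosure K))}
    {ι : Type} [Fintype ι] (F : ι → IntermediateField K (AlgebraicClosure K)) (n : ι → ℤ)
    {e : ℤ} (he : e ≠ 0) (hF : ∀ j, F j ∈ Glob Z 𝓛)
    (hrel : ∀ σ : GK K, ∑ j, n j * (fixn K (F j) σ : ℤ) = e) : LocWide Z 𝓛 := by
  intro σ _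
  by_contra hcon
  push Not at hcon
  apply he
  rw [← hrel σ]
  refine Finset.sum_eq_zero fun j _ => ?_
  have h1 : fixn K (F j) σ = 0 := by
    unfold fixn
    rw [Nat.card_eq_zero]
    left
    constructor
    rintro ⟨i, hi⟩
    have hi' : (σ : AlgebraicClosure K →ₐ[K] AlgebraicClosure K).comp i = i := hi
    have hfd : FiniteDimensional K (F j) := (hF j).1
    -- extend the embedding
    obtain ⟨τ, hτ⟩ := exists_ext (F j) i
    have h4 : FiniteDimensional K ((F j).map
        (τ : AlgebraicClosure K →ₐ[K] AlgebraicClosure K)) :=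
      IntermediateField.finiteDimensional_map _
    refine hcon _ h4 ?_ ((hF j).2 τ)
    rintro _ ⟨x, hx, rfl⟩
    have h5 : τ x = i ⟨x, hx⟩ := hτ ⟨x, hx⟩
    change σ (τ x) = τ x
    rw [h5]
    exact DFunLike.congr_fun hi' (⟨x, hx⟩ : F j)
  rw [h1]
  simp

end

end Pool.Agent.Q223.LW
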